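import Mathlib
import Pool.Agent.Helper27.BG.St4

/-! BG, module NUM, second proof (helper54): generic Kronecker evaluation. -/

namespace Pool.Agent.Helper54.BG

open Finset Polynomial

/-- balanced evaluation of `∑_{i < 2^k} f (off + i) 2^(b i)` -/
noncomputable def evT (f : ℕ → ℕ) (b : ℕ) (k : ℕ) : ℕ → ℕ :=
  Nat.rec (fun off => f off)
    (fun k ih off => Nat.add (ih off)
      (Nat.mul (Nat.pow 2 (Nat.mul b (Nat.pow 2 k))) (ih (Nat.add off (Nat.pow 2 k))))) k

/-- `∑_{i < 1056} f i 2^(b i)` -/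
noncomputable def ev (f : ℕ → ℕ) (b : ℕ) : ℕ :=
  Nat.add (evT f b 10 0) (Nat.mul (Nat.pow 2 (Nat.mul b 1024)) (evT f b 5 1024))

theorem evT_eq (f : ℕ → ℕ) (b : ℕ) : ∀ k off : ℕ,
    evT f b k off = ∑ i ∈ range (2 ^ k), f (off + i) * 2 ^ (b * i)
  | 0, off => by simp [evT]
  | k + 1, off => by
    have e : evT f b (k + 1) off = evT f b k off + 2 ^ (b * 2 ^ k) * evT f b k (off + 2 ^ k) := rfl
    rw [e, evT_eq f b k off, evT_eq f b k (off + 2 ^ k), pow_succ, mul_two, sum_range_add, mul_sum]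
    congr 1
    refine sum_congr rfl fun i _ => ?_
    rw [← add_assoc, mul_add, pow_add]; ring

private theorem ev_aux (f : ℕ → ℕ) (b m n : ℕ) :
    ∑ i ∈ range m, f (0 + i) * 2 ^ (b * i) + 2 ^ (b * m) * ∑ i ∈ range n, f (m + i) * 2 ^ (b * i) =
      ∑ i ∈ range (m + n), f i * 2 ^ (b * i) := by
  rw [sum_range_add, mul_sum]
  congr 1
  · simp
  · refine sum_congr rfl fun i _ => ?_
    rw [mul_add, pow_add]; ring

theorem ev_eq (f : ℕ → ℕ) (b : ℕ) : ev f b = ∑ i ∈ range 1056, f i * 2 ^ (b * i) := by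
  have e : ev f b = evT f b 10 0 + 2 ^ (b * 1024) * evT f b 5 1024 := rfl
  rw [e, evT_eq, evT_eq]
  exact ev_aux f b 1024 32

/-- the polynomial with coefficients `f i`, `i < 1056` -/
noncomputable def pol (f : ℕ → ℕ) : ℕ[X] := ∑ i ∈ range 1056, C (f i) * X ^ i

theorem pol_coeff (f : ℕ → ℕ) (n : ℕ) : (pol f).coeff n = if n < 1056 then f n else 0 := by
  unfold pol
  rw [finsetSum_coeff]
  simp only [coeff_C_mul, coeff_X_pow]
  by_cases h : n < 1056
  · rw [if_pos h, sum_eq_single n]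
    · simp
    · intro b _ hb; simp [Ne.symm hb]
    · intro h'; simp [h] at h'
  · rw [if_neg h]
    refine sum_eq_zero fun i hi => ?_
    have : n ≠ i := by have := mem_range.1 hi; omega
    simp [this]

theorem pol_eval (f : ℕ → ℕ) (b : ℕ) : (pol f).eval (2 ^ b) = ev f b := by
  rw [ev_eq]
  unfold pol
  rw [eval_finsetSum]
  exact sum_congr rfl fun i _ => by simp [pow_mul]

theorem pol_eval_one (f : ℕ → ℕ) : (pol f).eval 1 = ev f 0 := by
  rw [← pol_eval]; simp

/-- extraction of one coefficient -/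
theorem coeff_ext (p : ℕ[X]) (b n : ℕ) (h : p.eval 1 < 2 ^ b) :
    p.coeff n = p.eval (2 ^ b) / 2 ^ (b * n) % 2 ^ b := by
  set N := p.natDegree + 1 with hN
  have h1 : ∀ x : ℕ, p.eval x = ∑ i ∈ range (n + 1 + N), p.coeff i * x ^ i := fun x =>
    eval_eq_sum_range' (by omega) x
  have hB : 0 < 2 ^ b := by positivity
  have hone : ∑ i ∈ range (n + 1 + N), p.coeff i < 2 ^ b := by
    have := h1 1
    simp only [one_pow, mul_one] at this
    rw [← this]; exact h
  have hlow : ∑ i ∈ range n, p.coeff i * (2 ^ b) ^ i < (2 ^ b) ^ n := by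
    rcases Nat.eq_zero_or_pos n with hn | hn
    · subst hn; simp
    · calc ∑ i ∈ range n, p.coeff i * (2 ^ b) ^ i ≤ ∑ i ∈ range n, p.coeff i * (2 ^ b) ^ (n - 1) := by
            refine sum_le_sum fun i hi => Nat.mul_le_mul_left _ (Nat.pow_le_pow_right hB ?_)
            have := mem_range.1 hi; omega
        _ = (∑ i ∈ range n, p.coeff i) * (2 ^ b) ^ (n - 1) := by rw [sum_mul]
        _ < 2 ^ b * (2 ^ b) ^ (n - 1) := by
            refine Nat.mul_lt_mul_of_pos_right (lt_of_le_of_lt ?_ hone) (by positivity)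
            exact sum_le_sum_of_subset (by intro i hi; simp only [mem_range] at hi ⊢; omega)
        _ = (2 ^ b) ^ n := by rw [← pow_succ']; congr 1; omega
  have hcn : p.coeff n < 2 ^ b := by
    refine lt_of_le_of_lt ?_ hone
    exact single_le_sum (f := fun i => p.coeff i) (fun i _ => Nat.zero_le _) (by simp; omega)
  rw [h1 (2 ^ b), sum_range_add, sum_range_succ]
  have e2 : ∑ x ∈ range N, p.coeff (n + 1 + x) * (2 ^ b) ^ (n + 1 + x) =
      (2 ^ b) ^ n * (2 ^ b * ∑ x ∈ range N, p.coeff (n + 1 + x) * (2 ^ b) ^ x) := by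
    rw [mul_sum, mul_sum]
    exact sum_congr rfl fun i _ => by rw [pow_add, pow_add]; ring
  rw [e2, pow_mul, show ∑ i ∈ range n, p.coeff i * (2 ^ b) ^ i + p.coeff n * (2 ^ b) ^ n +
    (2 ^ b) ^ n * (2 ^ b * ∑ x ∈ range N, p.coeff (n + 1 + x) * (2 ^ b) ^ x) =
    ∑ i ∈ range n, p.coeff i * (2 ^ b) ^ i + (2 ^ b) ^ n * (p.coeff n +
      2 ^ b * ∑ x ∈ range N, p.coeff (n + 1 + x) * (2 ^ b) ^ x) by ring,
    Nat.add_mul_div_left _ _ (by positivity), Nat.div_eq_of_lt hlow, zero_add,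
    Nat.add_mul_mod_self_left, Nat.mod_eq_of_lt hcn]

/-- inner product as a coefficient -/
theorem inner_eq (p : ℕ[X]) (w : ℕ → ℕ) :
    (p * pol (fun i => w (1055 - i))).coeff 1055 = ∑ t ∈ range 1056, p.coeff t * w t := by
  rw [coeff_mul, Finset.Nat.sum_antidiagonal_eq_sum_range_succ
    (fun i j => p.coeff i * (pol (fun i => w (1055 - i))).coeff j) 1055]
  refine sum_congr rfl fun k hk => ?_
  have hk' : k < 1056 := mem_range.1 hk
  simp only [pol_coeff]
  rw [if_pos (by omega)]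
  congr 2; omega

end Pool.Agent.Helper54.BG
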